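import Pool.Agent.H581R3.Core.Bound

/-!
The density `z_I(S_n)` of type I zeros in the character table of `S_n` is not bounded away from
zero: `liminf z_I(S_n) = 0`.

The definitions (partitions as weakly decreasing sequences, hook lengths, cores, the density `zI`)
are in `Pool.Agent.H581R3.Core.Defs`.

Idea: adding a rim hook of length `t` to the `t`-cores of `n` gives `t * c_t(n) ≤ p(n + t)`, and the
number of partitions of `n` with largest part `t` is at most `p(n - t)`. Since `p` grows
subexponentially, for every small `ε > 0` there is an `n = n(ε)` maximising `log p(n) - ε n`, so that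
`p(k) ≤ p(n) exp(ε (k - n))` for all `k`, and `n(ε)` tends to infinity as `ε → 0`. For such `n` the
density is at most `(n+1)^K / p(n) + e / K + M / log (M/ε) + 2 / M` for all `K` and `M`.
-/

set_option autoImplicit false

namespace Pool.Agent.Results.MP_ded380_al.LiminfZero

open Pool.Agent.H581R3.Core

/-- For every `c > 0` there are arbitrarily large `n` with `z_I(S_n) < c`. -/
theorem result : ∀ c : ℝ, 0 < c → ∀ N : ℕ, ∃ n : ℕ, N ≤ n ∧ zI n < c :=
  fun c hc N => liminf_zero c hc N

end Pool.Agent.Results.MP_ded380_al.LiminfZero
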